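import Pool.Agent.Y5.V.Stm4

/-!
Project VL, part PER (by helper153): solutions with the period `1/m`.
Adapted from `Pool.Agent.Y794.VL.Sym`.
-/

open Set Filter Topology
open scoped ComplexConjugate

set_option autoImplicit false

namespace Pool.Agent.Y153.VL.Per

open Pool.Agent.Y5.V
open Pool.Agent.Y6.M (Z3 C3 Coef dt kc cj nsq len adv leray IsField energy)

/-- the factor of the translation by `e_i / m` -/
noncomputable def ph (m : ℕ) (i : Fin 3) (k : Z3) : ℂ :=
  Complex.exp (((2 * Real.pi * k i / m : ℝ) : ℂ) * Complex.I)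

section

variable {m : ℕ} {i : Fin 3}

theorem ph_add (p q : Z3) : ph m i (p + q) = ph m i p * ph m i q := by
  unfold ph
  rw [← Complex.exp_add]
  congr 1
  simp only [Pi.add_apply]
  push_cast
  ring

theorem ph_zero : ph m i 0 = 1 := by
  unfold ph
  simp

theorem ph_neg (k : Z3) : ph m i (-k) = conj (ph m i k) := by
  unfold ph
  rw [← Complex.exp_conj, map_mul, Complex.conj_ofReal, Complex.conj_I]
  congr 1
  simp only [Pi.neg_apply]
  push_cast
  ring

theorem ph_norm (k : Z3) : ‖ph m i k‖ = 1 := by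
  unfold ph
  exact Complex.norm_exp_ofReal_mul_I _

theorem ph_one_iff (hm : 0 < m) (k : Z3) : ph m i k = 1 ↔ (m : ℤ) ∣ k i := by
  have hm' : (m : ℂ) ≠ 0 := by exact_mod_cast hm.ne'
  have hpi : (Real.pi : ℂ) ≠ 0 := by exact_mod_cast Real.pi_ne_zero
  unfold ph
  rw [Complex.exp_eq_one_iff]
  constructor
  · rintro ⟨n, hn⟩
    refine ⟨n, ?_⟩
    have h1 : ((2 * Real.pi * k i / m : ℝ) : ℂ) = n * (2 * Real.pi) := by
      apply mul_right_cancel₀ Complex.I_ne_zero
      rw [hn]
      ring
    push_cast at h1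
    field_simp at h1
    have h2 : (k i : ℂ) = ((m * n : ℤ) : ℂ) := by
      push_cast
      linear_combination h1
    exact_mod_cast h2
  · rintro ⟨n, hn⟩
    refine ⟨n, ?_⟩
    rw [hn]
    push_cast
    field_simp

/-- the translated coefficients -/
noncomputable def tw (m : ℕ) (i : Fin 3) (V : Coef) : Coef := fun k j => ph m i k * V k j

theorem dt_smul (c : ℂ) (a b : C3) : dt (fun j => c * a j) b = c * dt a b := by
  unfold dt
  rw [Finset.mul_sum]
  exact Finset.sum_congr rfl fun j _ => mul_assoc _ _ _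

theorem dt_smul' (c : ℂ) (a b : C3) : dt a (fun j => c * b j) = c * dt a b := by
  unfold dt
  rw [Finset.mul_sum]
  exact Finset.sum_congr rfl fun j _ => by ring

theorem adv_tw (V : Coef) (k : Z3) (j : Fin 3) :
    adv (tw m i V) k j = ph m i k * adv V k j := by
  unfold adv
  rw [← tsum_mul_left]
  refine tsum_congr fun p => ?_
  have h1 : ph m i k = ph m i p * ph m i (k - p) := by
    rw [← ph_add]
    congr 1
    abel
  have h2 : dt (tw m i V p) (kc (k - p)) = ph m i p * dt (V p) (kc (k - p)) := dt_smul _ _ _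
  rw [h2, h1]
  unfold tw
  ring

theorem leray_smul (c : ℂ) (a : C3) (k : Z3) (j : Fin 3) :
    leray k (fun j => c * a j) j = c * leray k a j := by
  unfold leray
  rw [dt_smul']
  ring

theorem rhs_tw (d : Z3 → ℝ) (V : Coef) (k : Z3) (j : Fin 3) :
    rhs d (tw m i V) k j = ph m i k * rhs d V k j := by
  unfold rhs
  have h1 : adv (tw m i V) k = fun j => ph m i k * adv V k j := funext fun j => adv_tw V k j
  rw [h1, leray_smul]
  unfold tw
  ring

theorem norm_tw (V : Coef) (k : Z3) (j : Fin 3) : ‖tw m i V k j‖ = ‖V k j‖ := by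
  unfold tw
  rw [norm_mul, ph_norm, one_mul]

theorem field_tw {V : Coef} (hV : IsField V) : IsField (tw m i V) where
  zero := by
    funext j
    unfold tw
    rw [hV.zero, Pi.zero_apply, mul_zero]
  real := fun k j => by
    unfold tw
    rw [ph_neg, hV.real, map_mul]
  div := fun k => by
    unfold tw
    rw [dt_smul', hV.div, mul_zero]
  smooth := fun q => by
    obtain ⟨M, hM⟩ := hV.smooth q
    exact ⟨M, fun k j => by rw [norm_tw]; exact hM k j⟩

theorem sol_tw {d : Z3 → ℝ} {T : ℝ} {V : ℝ → Coef} (hV : Sol d T V) :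
    Sol d T (fun t => tw m i (V t)) where
  field := fun t ht => field_tw (hV.field t ht)
  reg := fun q T' hT' => by
    obtain ⟨M, hM⟩ := hV.reg q T' hT'
    exact ⟨M, fun t ht k j => by rw [norm_tw]; exact hM t ht k j⟩
  eqn := fun k hk j t ht => by
    have h1 := (hV.eqn k hk j t ht).const_mul (ph m i k)
    rw [rhs_tw]
    exact h1

end

theorem t_PER : S_PER := by
  intro hU d T W m hm hd hW h0 t ht k hk
  obtain ⟨i, hi⟩ : ∃ i, ¬ (m : ℤ) ∣ k i := by
    by_contra hcon
    push Not at hcon
    exact hk hcon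
  have h00 : tw m i (W 0) = W 0 := by
    funext p j
    by_cases hp : Mul m p
    · unfold tw
      rw [(ph_one_iff hm p).2 (hp i), one_mul]
    · unfold tw
      rw [h0 p hp, Pi.zero_apply, mul_zero]
  have h1 := hU d T _ _ hd (sol_tw (m := m) (i := i) hW) hW h00 t ht
  funext j
  have h2 : ph m i k * W t k j = W t k j := congrFun (congrFun h1 k) j
  have h3 : ph m i k ≠ 1 := fun h => hi ((ph_one_iff hm k).1 h)
  have h4 : (ph m i k - 1) * W t k j = 0 := by
    rw [sub_mul, h2]
    ring
  rcases mul_eq_zero.1 h4 with h5 | h5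
  · exact absurd (sub_eq_zero.1 h5) h3
  · exact h5

end Pool.Agent.Y153.VL.Per
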